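import Pool.Agent.Helper34.SQ.GoalsT

/-!
# Project SQ (MP_bb32d1_al), packet SQ-IDL: elementary properties of the ideals
-/

set_option autoImplicit false

namespace Pool.Agent.Helper28.SQ

open Matrix Pool.Agent.Helper19.SQ Pool.Agent.Helper34.SQ

section gen

variable {A : Type} [Ring A] [Algebra ℂ A] {ι : Type} [Fintype ι] [DecidableEq ι]
  (f : A →ₐ[ℂ] Matrix ι ι A) (e : A)

theorem gen_left {I : Submodule ℂ A} (hI : TwoS I) (a x : A) (hx : ∀ i j, f (x * e) i j ∈ I)
    (i j : ι) : f (a * x * e) i j ∈ I := by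
  rw [mul_assoc, map_mul, Matrix.mul_apply]
  exact Submodule.sum_mem _ fun k _ => (hI _ _ (hx k j)).1

theorem gen_right (hc : ∀ a, e * a = a * e) {I : Submodule ℂ A} (hI : TwoS I) (a x : A)
    (hx : ∀ i j, f (x * e) i j ∈ I) (i j : ι) : f (x * a * e) i j ∈ I := by
  rw [mul_assoc, ← hc a, ← mul_assoc, map_mul, Matrix.mul_apply]
  exact Submodule.sum_mem _ fun k _ => (hI _ _ (hx i k)).2

theorem gen_mul (hc : ∀ a, e * a = a * e) (he : e * e = e) {I J : Submodule ℂ A} (a b : A)
    (ha : ∀ i j, f (a * e) i j ∈ I) (hb : ∀ i j, f (b * e) i j ∈ J) (i j : ι) :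
    f (a * b * e) i j ∈ I * J := by
  have h : a * b * e = (a * e) * (b * e) := by
    calc a * b * e = a * (b * (e * e)) := by rw [he, mul_assoc]
      _ = a * ((b * e) * e) := by rw [← mul_assoc b e e]
      _ = a * (e * (b * e)) := by rw [hc (b * e)]
      _ = (a * e) * (b * e) := by rw [mul_assoc]
  rw [h, map_mul, Matrix.mul_apply]
  exact Submodule.sum_mem _ fun k _ => Submodule.mul_mem_mul (ha i k) (hb k j)

theorem gen_one (he : e * e = e) (I : Submodule ℂ A) (i j : ι) : f ((1 - e) * e) i j ∈ I := by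
  rw [sub_mul, one_mul, he, sub_self, map_zero, Matrix.zero_apply]
  exact I.zero_mem

theorem gen_trace (hc : ∀ a, e * a = a * e) (τ : A →ₗ[ℂ] ℂ) (x y : A)
    (hx : ∀ i j, f (x * e) i j ∈ It τ) : τ (Matrix.trace (f (x * y * e))) = 0 := by
  rw [mul_assoc, ← hc y, ← mul_assoc, map_mul]
  simp only [Matrix.trace, Matrix.diag_apply, Matrix.mul_apply, map_sum]
  exact Finset.sum_eq_zero fun i _ => Finset.sum_eq_zero fun k _ => hx i k _

end gen

/-- **Packet SQ-IDL** -/
theorem t_idl : S_IDL := by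
  intro A _ _ ι _ _ l C c m
  refine ⟨?_, ?_, ?_, ?_, ?_, ?_, ?_, ?_, ?_, ?_, ?_, ?_⟩
  · intro I hI a x hx
    exact ⟨gen_left C.δ _ hI a x hx, gen_right C.δ _ (C.e_cen _) hI a x hx⟩
  · intro I hI a x hx
    exact ⟨gen_left C.ε _ hI a x hx, gen_right C.ε _ (C.e_cen _) hI a x hx⟩
  · intro I J hIJ a ha i j
    exact hIJ (ha i j)
  · intro I J hIJ a ha i j
    exact hIJ (ha i j)
  · intro I k hk
    induction k, hk using Nat.le_induction with
    | base => rw [pow_one, pow_one]
    | succ k hk ih =>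
      rw [pow_succ, pow_succ]
      refine (mul_le_mul' ih le_rfl).trans ?_
      rw [Submodule.mul_le]
      intro a ha b hb
      exact gen_mul C.δ _ (C.e_cen _) (C.e_idem _) a b ha hb
  · intro I k hk
    induction k, hk using Nat.le_induction with
    | base => rw [pow_one, pow_one]
    | succ k hk ih =>
      rw [pow_succ, pow_succ]
      refine (mul_le_mul' ih le_rfl).trans ?_
      rw [Submodule.mul_le]
      intro a ha b hb
      exact gen_mul C.ε _ (C.e_cen _) (C.e_idem _) a b ha hb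
  · intro I
    exact gen_one C.δ _ (C.e_idem _) I
  · intro I
    exact gen_one C.ε _ (C.e_idem _) I
  · intro ζ τ hτ a x hx
    constructor
    · intro y
      rw [mul_assoc, hτ.tr, mul_assoc]
      exact hx _
    · intro y
      rw [mul_assoc]
      exact hx _
  · intro ζ τ hτ y
    rw [sub_mul, one_mul, map_sub, C.e_cen, hτ.blk, sub_self]
  · intro ζ τ _ x hx y
    exact gen_trace C.δ _ (C.e_cen _) τ x y hx
  · intro ζ τ _ x hx y
    exact gen_trace C.ε _ (C.e_cen _) τ x y hx

end Pool.Agent.Helper28.SQ
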