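import Pool.Agent.Helper34.SQ.GoalsT

/-!
# Project SQ (MP_bb32d1_al), packet SQ-IT: iteration of FIVE
-/

set_option autoImplicit false

namespace Pool.Agent.Helper28.SQ

open Matrix Pool.Agent.Helper19.SQ Pool.Agent.Helper34.SQ

/-- **Packet SQ-IT** -/
theorem t_it (hIDL : S_IDL) (hFIVE : S_FIVE) : S_IT := by
  intro A _ _ ι _ _ l C c m J hJ h1J hFJ h
  have blk : ∀ k : ℕ, m + ((k : ℕ) : ℤ) • al c + al c = m + (((k + 1 : ℕ) : ℤ)) • al c := by
    intro k
    rw [Nat.cast_add, Nat.cast_one, add_smul, one_smul, add_assoc]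
  have blk' : ∀ k : ℕ, m + (((k + 1 : ℕ) : ℤ)) • al c - al c = m + ((k : ℕ) : ℤ) • al c := by
    intro k
    rw [← blk, add_sub_cancel_right]
  have m0 : m + ((0 : ℕ) : ℤ) • al c = m := by simp
  -- the ideals `J_k`
  have hT : ∀ k, TwoS (Ein' C c m k J) := by
    intro k
    induction k with
    | zero => exact hJ
    | succ k ih => exact (hIDL A ι l C c (m + (k : ℤ) • al c)).2.1 _ ih
  have hO : ∀ k : ℕ, 1 - C.e (m + (k : ℤ) • al c) ∈ Ein' C c m k J := by
    intro k
    cases k with
    | zero => rw [m0]; exact h1J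
    | succ k =>
      rw [← blk]
      exact (hIDL A ι l C c (m + (k : ℤ) • al c)).2.2.2.2.2.2.2.1 _
  -- part (1)
  have P1 : ∀ k : ℕ, (Ein' C c m k J) ^ (k + 1) ≤
      Fi C c (m + ((k + 1 : ℕ) : ℤ) • al c) (Ein' C c m (k + 1) J) := by
    intro k
    induction k with
    | zero =>
      have h5 := hFIVE A ι l C c m J hJ h1J
      rw [hFJ] at h5
      have htop : Ei C c (m - al c) (⊤ : Submodule ℂ A) = ⊤ :=
        Submodule.eq_top_iff'.2 fun x => fun _ _ => Submodule.mem_top
      rw [htop] at h5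
      have hJle : J ≤ ⊤ * J := by
        intro x hx
        rw [← one_mul x]
        exact Submodule.mul_mem_mul Submodule.mem_top hx
      have e1 : Ein' C c m 1 J = Ei C c (m + ((0 : ℕ) : ℤ) • al c) J := rfl
      have e2 : Ein' C c m 0 J = J := rfl
      rw [e1, e2, m0, ← blk, m0, zero_add, pow_one]
      exact hJle.trans h5
    | succ k ih =>
      have h5 := hFIVE A ι l C c (m + ((k + 1 : ℕ) : ℤ) • al c) (Ein' C c m (k + 1) J) (hT _) (hO _)
      rw [blk', blk] at h5
      have hI := hIDL A ι l C c (m + (k : ℤ) • al c)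
      have h4 := hI.2.2.2.1 _ _ ih
      have h6 := hI.2.2.2.2.2.1 (Ein' C c m k J) (k + 1) (by omega)
      have e1 : Ein' C c m (k + 1) J = Ei C c (m + (k : ℤ) • al c) (Ein' C c m k J) := rfl
      have e2 : Ein' C c m (k + 1 + 1) J =
        Ei C c (m + ((k + 1 : ℕ) : ℤ) • al c) (Ein' C c m (k + 1) J) := rfl
      rw [e2, pow_succ]
      refine le_trans (mul_le_mul' ?_ le_rfl) h5
      refine le_trans ?_ h4
      rw [e1]
      exact h6
  -- part (2)
  have P2 : ∀ i : ℕ, i ≤ h → (Ein' C c m (h - i) J) ^ (h.descFactorial i) ≤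
      Fin' C c (m + (h : ℤ) • al c) i (Ein' C c m h J) := by
    intro i
    induction i with
    | zero =>
      intro _
      rw [Nat.descFactorial_zero, pow_one, Nat.sub_zero]
      exact le_rfl
    | succ i ih =>
      intro hi
      obtain ⟨k, hk⟩ : ∃ k, h = k + (i + 1) := ⟨h - (i + 1), by omega⟩
      have ih' := ih (by omega)
      have e3 : h - i = k + 1 := by omega
      have e4 : h - (i + 1) = k := by omega
      rw [e3] at ih'
      rw [e4, Nat.descFactorial_succ, e3, pow_mul]
      have e5 : m + (h : ℤ) • al c - (i : ℤ) • al c = m + ((k + 1 : ℕ) : ℤ) • al c := by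
        rw [add_sub_assoc, ← sub_smul]
        congr 2
        omega
      have hI := hIDL A ι l C c (m + ((k + 1 : ℕ) : ℤ) • al c)
      have e6 : Fin' C c (m + (h : ℤ) • al c) (i + 1) (Ein' C c m h J) =
        Fi C c (m + (h : ℤ) • al c - (i : ℤ) • al c)
          (Fin' C c (m + (h : ℤ) • al c) i (Ein' C c m h J)) := rfl
      rw [e6, e5]
      refine le_trans ?_ (hI.2.2.1 _ _ ih')
      have hpos : 1 ≤ h.descFactorial i := Nat.descFactorial_pos.2 (by omega)
      refine le_trans ?_ (hI.2.2.2.2.1 _ _ hpos)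
      exact pow_le_pow_left' (P1 k) _
  have h2 := P2 h le_rfl
  rw [Nat.sub_self, Nat.descFactorial_self] at h2
  exact h2

end Pool.Agent.Helper28.SQ
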