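import Pool.Agent.Helper34.SQ.GoalsT

/-!
# Project SQ (MP_bb32d1_al), packet SQ-KILL
-/

set_option autoImplicit false

namespace Pool.Agent.Helper28.SQ

noncomputable section

open Matrix Pool.Agent.Helper19.SQ Pool.Agent.Helper34.SQ

variable {A : Type} [Ring A] [Algebra ℂ A] {ι : Type} [Fintype ι] [DecidableEq ι] {l : ℕ}
  (C : Core A ι l)

/-- contraction with `cap0` -/
theorem capA (x z : A) (i j : ι) :
    ∑ i', C.ε (C.δ x i' i * z) i' j = x * C.ε z i j := by
  have h1 : ∀ i', C.ε (C.δ x i' i * z) i' j = ∑ k, C.ε (C.δ x i' i) i' k * C.ε z k j := by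
    intro i'
    rw [map_mul, Matrix.mul_apply]
  simp only [h1]
  rw [Finset.sum_comm]
  have h2 : ∀ k, ∑ i', C.ε (C.δ x i' i) i' k * C.ε z k j = if k = i then x * C.ε z k j else 0 := by
    intro k
    rw [← Finset.sum_mul, C.cap0, ite_mul, zero_mul]
  simp only [h2]
  rw [Finset.sum_ite_eq' Finset.univ i fun k => x * C.ε z k j, if_pos (Finset.mem_univ _)]

/-- contraction with `cap1` -/
theorem capB (x z : A) (i j : ι) :
    ∑ i', C.w i' • C.δ (C.ε x i' i * z) i' j = C.w i • (x * C.δ z i j) := by
  have h1 : ∀ i', C.w i' • C.δ (C.ε x i' i * z) i' j =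
      ∑ k, (C.w i' • C.δ (C.ε x i' i) i' k) * C.δ z k j := by
    intro i'
    rw [map_mul, Matrix.mul_apply, Finset.smul_sum]
    exact Finset.sum_congr rfl fun k _ => by rw [smul_mul_assoc]
  simp only [h1]
  rw [Finset.sum_comm]
  have h2 : ∀ k, ∑ i', (C.w i' • C.δ (C.ε x i' i) i' k) * C.δ z k j =
      if k = i then C.w k • (x * C.δ z k j) else 0 := by
    intro k
    rw [← Finset.sum_mul, C.cap1, ite_mul, zero_mul, smul_mul_assoc]
  simp only [h2]
  rw [Finset.sum_ite_eq' Finset.univ i fun k => C.w k • (x * C.δ z k j),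
    if_pos (Finset.mem_univ _)]

/-- the functional `b ↦ τ (f (b e) i j)` -/
def fnl (τ : A →ₗ[ℂ] ℂ) (f : A →ₐ[ℂ] Matrix ι ι A) (e : A) (i j : ι) : A →ₗ[ℂ] ℂ where
  toFun b := τ (f (b * e) i j)
  map_add' x y := by rw [add_mul, map_add, Matrix.add_apply, map_add]
  map_smul' r x := by
    rw [smul_mul_assoc, map_smul, Matrix.smul_apply, map_smul, RingHom.id_apply]

theorem fnl_apply (τ : A →ₗ[ℂ] ℂ) (f : A →ₐ[ℂ] Matrix ι ι A) (e : A) (i j : ι) (b : A) :
    fnl τ f e i j b = τ (f (b * e) i j) := rfl

/-- **Packet SQ-KILL** -/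
theorem t_kill : S_KILL := by
  intro A _ _ ι _ _ l C ζ c m τ hτ
  constructor
  · intro hEF
    have hσ : IsEF C ζ c (m + al c)
        (fun y => fnl τ C.ε (C.e (m + al c)) y.2 y.1) := by
      refine ⟨?_, ?_, ?_, ?_⟩
      · rintro a b ⟨j, i⟩
        rw [act_apply, Fintype.sum_prod_type]
        simp only [fnl_apply, D1, Matrix.of_apply, mul_assoc]
        simp only [← map_sum, capA]
        rw [map_sum]
        simp only [hτ.tr (C.ε a _ j)]
        rw [← map_sum, ← Matrix.mul_apply, ← map_mul, mul_assoc b, C.e_cen]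
      · rintro b ⟨j, i⟩
        simp only [fnl_apply]
        have h1 : C.φ b * C.e (m + al c) = C.φ (b * C.e (m + al c)) := by
          rw [map_mul, C.φe]
        rw [h1, C.φε, map_smul, hτ.eq, smul_eq_mul]
        have hi := (C.θ i).ne_zero
        have hj := (C.θ j).ne_zero
        field_simp
      · rintro b ⟨j, i⟩
        simp only [fnl_apply]
        rw [mul_assoc, C.e_idem]
      · funext y
        obtain ⟨j, i⟩ := y
        ext b
        rw [act_apply, Fintype.sum_prod_type]
        rw [Finset.sum_eq_single j]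
        · simp only [fnl_apply, X1, Matrix.of_apply, if_true, mul_assoc, add_sub_cancel_right]
          rw [← map_sum, capA, C.e_cen, hτ.blk]
        · intro j' _ hj'
          refine Finset.sum_eq_zero fun k _ => ?_
          simp only [X1, Matrix.of_apply]
          rw [if_neg hj', zero_mul, map_zero]
        · intro h; exact absurd (Finset.mem_univ _) h
    have h0 := hEF _ hσ
    intro y b i j
    rw [← capA, map_sum]
    refine Finset.sum_eq_zero fun k _ => ?_
    have h1 := congrFun h0 (j, k)
    have h2 := congrArg (fun F : A →ₗ[ℂ] ℂ => F (C.δ y k i * b)) h1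
    simp only [fnl_apply, Pi.zero_apply, LinearMap.zero_apply, mul_assoc] at h2
    exact h2
  · intro hFE
    have hσ : IsFE C ζ c (m - al c)
        (fun y => C.w y.2 • fnl τ C.δ (C.e (m - al c)) y.2 y.1) := by
      have hw : ∀ (x z : A) (i j : ι), ∑ i', C.w i' * τ (C.δ (C.ε x i' i * z) i' j) =
          C.w i * τ (x * C.δ z i j) := by
        intro x z i j
        have := congrArg τ (capB C x z i j)
        rw [map_sum, map_smul] at this
        simpa only [map_smul, smul_eq_mul] using this
      refine ⟨?_, ?_, ?_, ?_⟩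
      · rintro a b ⟨j, i⟩
        rw [act_apply, Fintype.sum_prod_type]
        simp only [LinearMap.smul_apply, smul_eq_mul, fnl_apply, D2, Matrix.of_apply, mul_assoc]
        simp only [hw]
        rw [← Finset.mul_sum]
        simp only [hτ.tr (C.δ a _ j)]
        rw [← map_sum, ← Matrix.mul_apply, ← map_mul, mul_assoc b, C.e_cen]
      · rintro b ⟨j, i⟩
        simp only [LinearMap.smul_apply, smul_eq_mul, fnl_apply]
        have h1 : C.φ b * C.e (m - al c) = C.φ (b * C.e (m - al c)) := by
          rw [map_mul, C.φe]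
        rw [h1, C.φδ, map_smul, hτ.eq, smul_eq_mul]
        have hi := (C.θ i).ne_zero
        have hj := (C.θ j).ne_zero
        field_simp
      · rintro b ⟨j, i⟩
        simp only [LinearMap.smul_apply, smul_eq_mul, fnl_apply]
        rw [mul_assoc, C.e_idem]
      · funext y
        obtain ⟨j, i⟩ := y
        ext b
        rw [act_apply, Fintype.sum_prod_type]
        rw [Finset.sum_eq_single j]
        · simp only [LinearMap.smul_apply, smul_eq_mul, fnl_apply, X1, Matrix.of_apply, if_true,
            mul_assoc, sub_add_cancel]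
          rw [hw, C.e_cen, hτ.blk]
        · intro j' _ hj'
          refine Finset.sum_eq_zero fun k _ => ?_
          simp only [X1, Matrix.of_apply]
          rw [if_neg hj', zero_mul, map_zero]
        · intro h; exact absurd (Finset.mem_univ _) h
    have h0 := hFE _ hσ
    intro y b i j
    have h3 : C.w i * τ (y * C.δ (b * C.e (m - al c)) i j) = 0 := by
      have h4 := congrArg τ (capB C y (b * C.e (m - al c)) i j)
      rw [map_smul, smul_eq_mul] at h4
      rw [← h4, map_sum]
      refine Finset.sum_eq_zero fun k _ => ?_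
      have h1 := congrFun h0 (j, k)
      have h2 := congrArg (fun F : A →ₗ[ℂ] ℂ => F (C.ε y k i * b)) h1
      simp only [LinearMap.smul_apply, smul_eq_mul, fnl_apply, Pi.zero_apply,
        LinearMap.zero_apply, mul_assoc] at h2
      rw [map_smul, smul_eq_mul]
      exact h2
    exact (mul_eq_zero.1 h3).resolve_left (C.w_ne i)

end

end Pool.Agent.Helper28.SQ
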