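import Pool.Agent.Helper19.SQ.GoalsQ2
import Pool.Agent.Helper19.SQ.GoalsH

/-!
Project SQ (MP_bb32d1_al), packet CN (helper28): commutators of root vectors.
-/

namespace Pool.Agent.Helper28.SQ

open Pool.Agent.Helper19.SQ

noncomputable section

section Abs

variable {B : Type} [Ring B] [Algebra ℂ B]

theorem cn_c2 (s c : ℂ) (a e X f k g m : B) (hc : e * X = X * e) (h1 : a * X - X * a = f * k)
    (h2 : k * e = s • (e * k)) (h3 : e * f - f * e = c • (g * m)) :
    (a * e - s • (e * a)) * X - X * (a * e - s • (e * a)) = (-s * c) • (g * (m * k)) := by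
  have h4 : (a * e - s • (e * a)) * X - X * (a * e - s • (e * a))
      = (a * X - X * a) * e - s • (e * (a * X - X * a)) := by
    have h5 : a * (e * X) = a * (X * e) := by rw [hc]
    have h6 : X * (e * a) = e * (X * a) := by rw [← mul_assoc, ← hc, mul_assoc]
    simp only [mul_sub, sub_mul, smul_mul_assoc, mul_smul_comm, mul_assoc, smul_sub, h5, h6]
    abel
  rw [h4, h1, mul_assoc, h2, mul_smul_comm, ← smul_sub, ← mul_assoc, ← mul_assoc, ← sub_mul,
    ← neg_sub, h3, neg_mul, smul_neg, smul_mul_assoc, smul_smul, mul_assoc, neg_mul, neg_smul]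

theorem cn_c3 (q c : ℂ) (a f e K K' : B) (hq : q ≠ 0) (hc : e * a = a * e)
    (hef : e * f - f * e = c • (K - K')) (hK : K * a = q • (a * K)) (hK' : K' * a = q⁻¹ • (a * K')) :
    e * (a * f - q⁻¹ • (f * a)) - (a * f - q⁻¹ • (f * a)) * e
      = (-(c * (1 - q⁻¹ * q⁻¹))) • (a * K') := by
  have h4 : e * (a * f - q⁻¹ • (f * a)) - (a * f - q⁻¹ • (f * a)) * e
      = a * (e * f - f * e) - q⁻¹ • ((e * f - f * e) * a) := by
    have h5 : e * (a * f) = a * (e * f) := by rw [← mul_assoc, hc, mul_assoc]
    have h6 : f * (a * e) = f * (e * a) := by rw [hc]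
    simp only [mul_sub, sub_mul, smul_mul_assoc, mul_smul_comm, mul_assoc, smul_sub, h5, h6]
    abel
  rw [h4, hef, mul_smul_comm, smul_mul_assoc, mul_sub, sub_mul, hK, hK']
  simp only [smul_sub, smul_smul]
  have h7 : q⁻¹ * (c * q) = c := by field_simp
  rw [h7]
  module

theorem cn_c1 (q s c d : ℂ) (a e X f k w b K K' : B) (h3 : e * X - X * e = s • (b * K'))
    (hK' : K' * a = q • (a * K')) (h1 : a * X - X * a = f * k) (h2 : k * e = q⁻¹ • (e * k))
    (hq : q ≠ 0) (hw : a * b - b * a = d • w) (hef : e * f - f * e = c • (K - K')) :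
    (a * e - q⁻¹ • (e * a)) * X - X * (a * e - q⁻¹ • (e * a))
      = (s * d) • (w * K') - (q⁻¹ * c) • ((K - K') * k) := by
  have h4 : (a * e - q⁻¹ • (e * a)) * X - X * (a * e - q⁻¹ • (e * a))
      = (a * (e * X - X * e) - q⁻¹ • ((e * X - X * e) * a)) +
        ((a * X - X * a) * e - q⁻¹ • (e * (a * X - X * a))) := by
    simp only [mul_sub, sub_mul, smul_mul_assoc, mul_smul_comm, mul_assoc, smul_sub]
    abel
  have h5 : a * (s • (b * K')) - q⁻¹ • ((s • (b * K')) * a) = (s * d) • (w * K') := by
    rw [mul_smul_comm, smul_mul_assoc, mul_assoc, hK', mul_smul_comm, smul_smul, smul_smul]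
    have h7 : q⁻¹ * s * q = s := by field_simp
    rw [h7, ← smul_sub, ← mul_assoc, ← mul_assoc, ← sub_mul, hw, smul_mul_assoc, smul_smul]
  have h6 : (f * k) * e - q⁻¹ • (e * (f * k)) = - ((q⁻¹ * c) • ((K - K') * k)) := by
    rw [mul_assoc, h2, mul_smul_comm, ← smul_sub, ← mul_assoc, ← mul_assoc, ← sub_mul,
      ← neg_sub, hef, neg_mul, smul_neg, smul_mul_assoc, smul_smul]
  rw [h4, h3, h1, h5, h6]
  abel

theorem rv_rec (q : ℂ) (E : ℕ → B) (i j : ℕ) (h : i + 1 < j) :
    rv q E i j = E i * rv q E (i + 1) j - q⁻¹ • (rv q E (i + 1) j * E i) := by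
  unfold rv
  have h1 : j - i - 1 = (j - (i + 1) - 1) + 1 := by omega
  rw [h1]
  rfl

theorem rv_one (q : ℂ) (E : ℕ → B) (i : ℕ) : rv q E i (i + 1) = E i := by
  unfold rv
  have h1 : i + 1 - i - 1 = 0 := by omega
  rw [h1]
  rfl

theorem rv_comm (q : ℂ) (E : ℕ → B) (X : B) (n : ℕ) :
    ∀ r s, s = r + n + 1 → (∀ t, r ≤ t → t < s → E t * X = X * E t) →
      rv q E r s * X = X * rv q E r s := by
  induction n with
  | zero =>
    intro r s hs h
    subst hs
    rw [rv_one]
    exact h r le_rfl (by omega)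
  | succ n ih =>
    intro r s hs h
    have h1 := ih (r + 1) s (by omega) (fun t ht hts => h t (by omega) hts)
    have h2 := h r le_rfl (by omega)
    rw [rv_rec q E r s (by omega)]
    rw [sub_mul, mul_sub, smul_mul_assoc, mul_smul_comm]
    congr 1
    · rw [mul_assoc, h1, ← mul_assoc, h2, mul_assoc]
    · congr 1
      rw [mul_assoc, h2, ← mul_assoc, h1, mul_assoc]

end Abs

/-- **CN**. -/
theorem sCN (hCM1 : S_CM1) (hCM2 : S_CM2) (hKG : S_KG) (hKI : S_KI) : S_CN := by
  intro B _ _ N l q E F K hP hR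
  have hl : 1 ≤ l := le_trans (by norm_num) hP.h3
  have hq : q ≠ 0 := hP.prim.ne_zero (by omega)
  have hq2 : q ^ 2 ≠ 1 := by
    intro h
    have h1 := hP.prim.dvd_of_pow_eq_one 2 h
    have h2 := Nat.le_of_dvd (by norm_num) h1
    have := hP.h3
    omega
  have hqq : q - q⁻¹ ≠ 0 := by
    intro h
    apply hq2
    have h1 : q = q⁻¹ := sub_eq_zero.1 h
    rw [pow_two]
    nth_rewrite 1 [h1]
    exact inv_mul_cancel₀ hq
  obtain ⟨cA, -, -⟩ := hCM1 B N l q E F K hP hR
  obtain ⟨⟨dA, dB, -⟩, -⟩ := hCM2 B N l q E F K hP hR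
  have kg := hKG B N l q E F K hl hq hR
  obtain ⟨k1, k2, k3, k4, k5, k6⟩ := hKI B l K hl hR.K_comm hR.K_pow
  -- weights
  have wE : ∀ p r i j, i < j → kk l K p r * rv q E i j
      = q ^ (ew p i j - ew r i j) • (rv q E i j * kk l K p r) := by
    intro p r i j hij
    have h1 := (kg p i j hij).1.1
    have h2 := (kg r i j hij).1.2
    unfold kk
    rw [mul_assoc, h2, mul_smul_comm, ← mul_assoc, h1, smul_mul_assoc, smul_smul, mul_assoc,
      ← zpow_add₀ hq]
    congr 2
    ring
  have wF : ∀ p r i j, i < j → kk l K p r * rv q F i j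
      = q ^ (-ew p i j + ew r i j) • (rv q F i j * kk l K p r) := by
    intro p r i j hij
    have h1 := (kg p i j hij).2.1.1
    have h2 := (kg r i j hij).2.1.2
    unfold kk
    rw [mul_assoc, h2, mul_smul_comm, ← mul_assoc, h1, smul_mul_assoc, smul_smul, mul_assoc,
      ← zpow_add₀ hq]
    congr 2
    ring
  -- products of the `kk`
  have kkm : ∀ a b c, kk l K b c * kk l K a b = kk l K a c := by
    intro a b c
    unfold kk
    calc K b * ki l K c * (K a * ki l K b) = (K b * ki l K c * K a) * ki l K b := by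
          rw [mul_assoc, mul_assoc, mul_assoc]
      _ = (K a * ki l K c * K b) * ki l K b := by
          congr 1
          rw [mul_assoc, ← k3 a c, ← mul_assoc, hR.K_comm b a, mul_assoc, k3 b c, ← mul_assoc]
      _ = K a * ki l K c := by rw [mul_assoc, k1, mul_one]
  have kkc : ∀ a b c d, kk l K a b * kk l K c d = kk l K c d * kk l K a b := by
    intro a b c d
    unfold kk
    calc K a * ki l K b * (K c * ki l K d) = K a * (ki l K b * K c) * ki l K d := by
          simp only [mul_assoc]
      _ = K a * (K c * ki l K b) * ki l K d := by rw [k3 c b]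
      _ = (K a * K c) * (ki l K b * ki l K d) := by simp only [mul_assoc]
      _ = (K c * K a) * (ki l K d * ki l K b) := by rw [hR.K_comm a c, k4 b d]
      _ = K c * (K a * ki l K d) * ki l K b := by simp only [mul_assoc]
      _ = K c * (ki l K d * K a) * ki l K b := by rw [k3 a d]
      _ = K c * ki l K d * (K a * ki l K b) := by simp only [mul_assoc]
  -- (C4)
  have C4 : ∀ i r s k, i < r → r < s → s < k → k ≤ N →
      rv q E r s * rv q F i k = rv q F i k * rv q E r s := by
    intro i r s k hir hrs hsk hkN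
    refine rv_comm q E _ (s - r - 1) r s (by omega) ?_
    intro t ht hts
    exact dA i k t (by omega) hkN (by omega) (by omega)
  -- the weight of `k_i` on `E_{i+1,j}`
  have wk : ∀ i j, i + 1 < j → kk l K i (i + 1) * rv q E (i + 1) j
      = q⁻¹ • (rv q E (i + 1) j * kk l K i (i + 1)) := by
    intro i j hij
    rw [wE i (i + 1) (i + 1) j hij]
    congr 1
    have h1 : ew i (i + 1) j - ew (i + 1) (i + 1) j = -1 := by
      unfold ew
      have e1 : ¬ (i = i + 1) := by omega
      have e2 : ¬ (i = j) := by omega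
      have e3 : ¬ (i + 1 = j) := by omega
      simp [e2, e3]
    rw [h1, zpow_neg_one]
  -- the scalars
  have cst : ∀ i j, i + 1 < j →
      ((-q)⁻¹ ^ (j - i - 1) : ℂ) = -q⁻¹ * (-q)⁻¹ ^ (j - (i + 1) - 1) := by
    intro i j hij
    have h1 : j - i - 1 = (j - (i + 1) - 1) + 1 := by omega
    rw [h1, pow_succ, mul_comm, inv_neg]
  -- (C2)
  have C2 : ∀ n, ∀ i j k, j = i + n + 1 → j < k → k ≤ N →
      rv q E i j * rv q F i k - rv q F i k * rv q E i j
      = (-q)⁻¹ ^ (j - i - 1) • (rv q F j k * kk l K i j) := by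
    intro n
    induction n with
    | zero =>
      intro i j k hj hjk hkN
      subst hj
      have h1 := dB i k (by omega) hkN
      have h2 : i + 0 + 1 - i - 1 = 0 := by omega
      rw [h2, pow_zero, one_smul]
      have h3 := rv_one q E i
      simp only [add_zero] at h1 h3 ⊢
      rw [h3]
      exact h1
    | succ n ih =>
      intro i j k hj hjk hkN
      have h3 := ih (i + 1) j k (by omega) hjk hkN
      have h1 := dB i k (by omega) hkN
      have hc := C4 i (i + 1) j k (by omega) (by omega) hjk hkN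
      have h2 := wk i j (by omega)
      -- `[E', F_{i+1,k}]`
      have h5 := cn_c2 q⁻¹ _ (E i) (rv q E (i + 1) j) (rv q F i k) (rv q F (i + 1) k)
        (kk l K i (i + 1)) _ _ hc h1 h2 h3
      rw [rv_rec q E i j (by omega), h5, kkm, ← cst i j (by omega)]
  -- (C1) and (C3) together
  have C13 : ∀ n, ∀ i j, j = i + n + 1 → j ≤ N →
      (rv q E i j * rv q F i j - rv q F i j * rv q E i j
        = ((-q)⁻¹ ^ (j - i - 1) * (q - q⁻¹)⁻¹) • (kk l K i j - kk l K j i)) ∧
      (i + 2 ≤ j → rv q E (i + 1) j * rv q F i j - rv q F i j * rv q E (i + 1) j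
        = (-q)⁻¹ ^ (j - i - 1) • (F i * kk l K j (i + 1))) := by
    intro n
    induction n with
    | zero =>
      intro i j hj hjN
      subst hj
      simp only [add_zero]
      refine ⟨?_, fun h => by omega⟩
      have h2 : i + 1 - i - 1 = 0 := by omega
      rw [h2, pow_zero, one_mul, rv_one, rv_one, hR.EF i (by omega)]
      congr 2
      unfold kk
      rw [k3 (i + 1) i]
      rfl
    | succ n ih =>
      intro i j hj hjN
      have hef := (ih (i + 1) j (by omega) hjN).1
      have c3 : rv q E (i + 1) j * rv q F i j - rv q F i j * rv q E (i + 1) j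
          = (-q)⁻¹ ^ (j - i - 1) • (F i * kk l K j (i + 1)) := by
        have hc : rv q E (i + 1) j * F i = F i * rv q E (i + 1) j :=
          cA (i + 1) j i (by omega) hjN (by omega) (by omega)
        have hK : kk l K (i + 1) j * F i = q • (F i * kk l K (i + 1) j) := by
          have h1 := wF (i + 1) j i (i + 1) (by omega)
          rw [rv_one] at h1
          rw [h1]
          congr 1
          have h2 : -ew (i + 1) i (i + 1) + ew j i (i + 1) = 1 := by
            unfold ew
            have e1 : ¬ (j = i) := by omega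
            have e2 : ¬ (j = i + 1) := by omega
            simp [e1, e2]
          rw [h2, zpow_one]
        have hK' : kk l K j (i + 1) * F i = q⁻¹ • (F i * kk l K j (i + 1)) := by
          have h1 := wF j (i + 1) i (i + 1) (by omega)
          rw [rv_one] at h1
          rw [h1]
          congr 1
          have h2 : -ew j i (i + 1) + ew (i + 1) i (i + 1) = -1 := by
            unfold ew
            have e1 : ¬ (j = i) := by omega
            have e2 : ¬ (j = i + 1) := by omega
            simp [e1, e2]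
          rw [h2, zpow_neg_one]
        have h5 := cn_c3 q _ (F i) (rv q F (i + 1) j) (rv q E (i + 1) j) _ _ hq hc hef hK hK'
        rw [rv_rec q F i j (by omega), h5, cst i j (by omega)]
        congr 1
        field_simp
      refine ⟨?_, fun _ => c3⟩
      have hKE : kk l K j (i + 1) * E i = q • (E i * kk l K j (i + 1)) := by
        have h1 := wE j (i + 1) i (i + 1) (by omega)
        rw [rv_one] at h1
        rw [h1]
        congr 1
        have h2 : ew j i (i + 1) - ew (i + 1) i (i + 1) = 1 := by
          unfold ew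
          have e1 : ¬ (j = i) := by omega
          have e2 : ¬ (j = i + 1) := by omega
          simp [e1, e2]
        rw [h2, zpow_one]
      have h1 := dB i j (by omega) hjN
      have h2 := wk i j (by omega)
      have hw : E i * F i - F i * E i
          = (q - q⁻¹)⁻¹ • (kk l K i (i + 1) - kk l K (i + 1) i) := by
        rw [hR.EF i (by omega)]
        congr 2
        unfold kk
        rw [k3 (i + 1) i]
        rfl
      have h5 := cn_c1 q _ _ _ (E i) (rv q E (i + 1) j) (rv q F i j) (rv q F (i + 1) j)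
        (kk l K i (i + 1)) _ (F i) _ _ c3 hKE h1 h2 hq hw hef
      rw [rv_rec q E i j (by omega), h5, sub_mul, sub_mul, kkm, kkm,
        kkc i (i + 1) j (i + 1), cst i j (by omega)]
      module
  refine ⟨fun i j hij hjN => (C13 (j - i - 1) i j (by omega) hjN).1,
    fun i j k hij hjk hkN => C2 (j - i - 1) i j k (by omega) hjk hkN,
    fun i j hij hjN => (C13 (j - i - 1) i j (by omega) hjN).2 hij,
    fun i r s k h1 h2 h3 h4 => C4 i r s k h1 h2 h3 h4⟩

end

end Pool.Agent.Helper28.SQ
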