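import Pool.Agent.Helper19.SQ.GoalsH

/-!
# Project SQ (MP_bb32d1_al), packet SQ-SPAN: words are combinations of monomials of the same height
-/

set_option autoImplicit false

namespace Pool.Agent.Helper28.SQ

open Pool.Agent.Helper19.SQ

/-- supported on the pairs `i < j ≤ N` -/
def Supp (N : ℕ) (b : ℕ → ℕ → ℕ) : Prop := ∀ i j, ¬ (i < j ∧ j ≤ N) → b i j = 0

section height

/-- two functions that differ at one point only -/
theorem sum_diff_one {α : Type} [DecidableEq α] (s : Finset α) (f g : α → ℕ) (p : α) (hp : p ∈ s)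
    (h : ∀ x, x ≠ p → f x = g x) : ∑ x ∈ s, f x + g p = ∑ x ∈ s, g x + f p := by
  rw [← Finset.add_sum_erase s f hp, ← Finset.add_sum_erase s g hp]
  have e : ∑ x ∈ s.erase p, f x = ∑ x ∈ s.erase p, g x :=
    Finset.sum_congr rfl fun x hx => h x (Finset.ne_of_mem_erase hx)
  rw [e]
  ring

theorem ht_upd (N : ℕ) (b : ℕ → ℕ → ℕ) (i j c : ℕ) (hi : i ≤ N) (hj : j ≤ N) :
    ht N (upd b i j c) + b i j * (j - i) = ht N b + c * (j - i) := by
  unfold ht
  rw [← Finset.sum_product', ← Finset.sum_product']
  have h := sum_diff_one (Finset.range (N + 1) ×ˢ Finset.range (N + 1))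
    (fun p => upd b i j c p.1 p.2 * (p.2 - p.1)) (fun p => b p.1 p.2 * (p.2 - p.1)) (i, j)
    (by simp; omega) (by
      rintro ⟨x, y⟩ hne
      have : ¬ (x = i ∧ y = j) := fun h => hne (by rw [h.1, h.2])
      simp only [upd, if_neg this])
  simp only [upd, and_self, if_true] at h ⊢
  exact h

theorem ht_inc (N : ℕ) (b : ℕ → ℕ → ℕ) (i j : ℕ) (hi : i ≤ N) (hj : j ≤ N) :
    ht N (inc b i j) = ht N b + (j - i) := by
  have h := ht_upd N b i j (b i j + 1) hi hj
  unfold inc
  rw [add_mul, one_mul] at h
  omega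

theorem ht_mvr (N : ℕ) (b : ℕ → ℕ → ℕ) (i k : ℕ) (hi : i < k) (hk : k < N) (hb : b i k ≠ 0) :
    ht N (mvr b i k) = ht N b + 1 := by
  unfold mvr
  rw [ht_inc N _ i (k + 1) (by omega) (by omega)]
  have h := ht_upd N b i k (b i k - 1) (by omega) (by omega)
  obtain ⟨c, hc⟩ := Nat.exists_eq_succ_of_ne_zero hb
  rw [hc] at h ⊢
  simp only [Nat.succ_eq_add_one, add_tsub_cancel_right] at h ⊢
  rw [add_mul, one_mul] at h
  omega

theorem Supp.inc {N : ℕ} {b : ℕ → ℕ → ℕ} (hb : Supp N b) {i j : ℕ} (hij : i < j) (hj : j ≤ N) :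
    Supp N (inc b i j) := by
  intro x y h
  unfold Pool.Agent.Helper19.SQ.inc upd
  rw [if_neg (by rintro ⟨rfl, rfl⟩; exact h ⟨hij, hj⟩)]
  exact hb x y h

theorem Supp.mvr {N : ℕ} {b : ℕ → ℕ → ℕ} (hb : Supp N b) {i k : ℕ} (hik : i < k) (hk : k < N) :
    Supp N (mvr b i k) := by
  unfold Pool.Agent.Helper19.SQ.mvr
  refine Supp.inc ?_ (by omega) (by omega)
  intro x y h
  unfold upd
  rw [if_neg (by rintro ⟨rfl, rfl⟩; exact h ⟨hik, by omega⟩)]
  exact hb x y h

end height

section
variable {B : Type} [Ring B] [Algebra ℂ B]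

/-- the span of the admissible monomials of height `h` -/
noncomputable def Tsp (N l : ℕ) (q : ℂ) (E : ℕ → B) (h : ℕ) : Submodule ℂ B :=
  Submodule.span ℂ {x | ∃ b, IsEx N l b ∧ ht N b = h ∧ x = mon N q E b}

/-- a monomial with an exponent `≥ l` vanishes -/
theorem mon_zero {N l : ℕ} {q : ℂ} {E : ℕ → B} (hp : ∀ d i, rvA q E d i ^ l = 0)
    {b : ℕ → ℕ → ℕ} {i j : ℕ} (hij : i < j) (hj : j ≤ N) (hb : l ≤ b i j) :
    mon N q E b = 0 := by
  unfold mon
  refine List.prod_eq_zero ?_
  rw [List.mem_map]
  refine ⟨i, List.mem_range.2 (by omega), ?_⟩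
  unfold rowM
  refine List.prod_eq_zero ?_
  rw [List.mem_map]
  refine ⟨j - i - 1, List.mem_range.2 (by omega), ?_⟩
  have e : i + 1 + (j - i - 1) = j := by omega
  rw [e]
  unfold rv
  obtain ⟨c, hc⟩ := Nat.exists_eq_add_of_le hb
  rw [hc, pow_add, hp, zero_mul]

/-- every monomial is in the span of the admissible ones of the same height -/
theorem mon_mem {N l : ℕ} {q : ℂ} {E : ℕ → B} (hp : ∀ d i, rvA q E d i ^ l = 0)
    {b : ℕ → ℕ → ℕ} (hs : Supp N b) : mon N q E b ∈ Tsp N l q E (ht N b) := by
  by_cases h : ∀ i j, i < j ∧ j ≤ N → b i j < l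
  · exact Submodule.subset_span ⟨b, fun i j => ⟨h i j, hs i j⟩, rfl, rfl⟩
  · push Not at h
    obtain ⟨i, j, ⟨hij, hj⟩, hb⟩ := h
    rw [mon_zero hp hij hj hb]
    exact Submodule.zero_mem _

end

/-- **Packet SQ-SPAN** -/
theorem s_span (hLM : S_LM) : S_SPAN := by
  intro B _ _ N l q E hl hq hq1 hq2 hS hout hp w
  show (w.map E).prod ∈ Tsp N l q E w.length
  induction w with
  | nil =>
    have h0 : Supp N (fun _ _ => 0) := fun _ _ _ => rfl
    have h1 : mon N q E (fun _ _ => 0) = 1 := by
      unfold mon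
      refine List.prod_eq_one ?_
      intro x hx
      obtain ⟨i, -, rfl⟩ := List.mem_map.1 hx
      unfold rowM
      refine List.prod_eq_one ?_
      intro y hy
      obtain ⟨d, -, rfl⟩ := List.mem_map.1 hy
      rw [pow_zero]
    have h2 : ht N (fun _ _ => 0) = 0 := by simp [ht]
    have h3 := mon_mem (l := l) hp h0
    rw [h1, h2] at h3
    simpa using h3
  | cons k w ih =>
    rw [List.map_cons, List.prod_cons, List.length_cons]
    by_cases hk : k < N
    · have hmap : ∀ x ∈ Tsp N l q E w.length, E k * x ∈ Tsp N l q E (w.length + 1) := by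
        intro x hx
        unfold Tsp at hx
        induction hx using Submodule.span_induction with
        | mem x hx =>
          obtain ⟨b, hb, hh, rfl⟩ := hx
          have hs : Supp N b := fun i j h => (hb i j).2 h
          rw [hLM B N q E hq hq1 hq2 hS b k hk]
          refine Submodule.add_mem _ (Submodule.sum_mem _ fun i hi => ?_) ?_
          · have hik : i < k := Finset.mem_range.1 hi
            by_cases hb0 : b i k = 0
            · have : qn q (b i k) = 0 := by rw [hb0]; simp [qn]
              rw [this, mul_zero, mul_zero, zero_smul]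
              exact Submodule.zero_mem _
            · refine Submodule.smul_mem _ _ ?_
              have := mon_mem (l := l) (q := q) (E := E) hp (hs.mvr hik hk)
              rwa [ht_mvr N b i k hik hk hb0, hh] at this
          · refine Submodule.smul_mem _ _ ?_
            have := mon_mem (l := l) (q := q) (E := E) hp
              (hs.inc (show k < k + 1 by omega) (show k + 1 ≤ N by omega))
            rw [ht_inc N b k (k + 1) (by omega) (by omega), hh,
              show k + 1 - k = 1 by omega] at this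
            exact this
        | zero => rw [mul_zero]; exact Submodule.zero_mem _
        | add x y _ _ hx hy => rw [mul_add]; exact Submodule.add_mem _ hx hy
        | smul c x _ hx => rw [mul_smul_comm]; exact Submodule.smul_mem _ _ hx
      exact hmap _ ih
    · rw [hout k (by omega), zero_mul]
      exact Submodule.zero_mem _

end Pool.Agent.Helper28.SQ
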