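import Pool.Agent.Helper19.SQ.GoalsB

/-!
Project SQ (MP_bb32d1_al), packet BUNIQ (helper28).
-/

namespace Pool.Agent.Helper28.SQ

open Pool.Agent.Helper19.SQ Pool.Agent.Helper41.SQ

noncomputable section

theorem ps_ode_uniq (P F G : PowerSeries ℂ) (hP : PowerSeries.coeff 0 P = 0)
    (hF : PowerSeries.X * PowerSeries.derivative ℂ F = P * F)
    (hG : PowerSeries.X * PowerSeries.derivative ℂ G = P * G)
    (h0 : PowerSeries.coeff 0 F = PowerSeries.coeff 0 G) : F = G := by
  have hD : PowerSeries.X * PowerSeries.derivative ℂ (F - G) = P * (F - G) := by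
    rw [map_sub, mul_sub, mul_sub, hF, hG]
  have key : ∀ k, PowerSeries.coeff k (F - G) = 0 := by
    intro k
    induction k using Nat.strong_induction_on with
    | _ k ih =>
      cases k with
      | zero => rw [map_sub, h0, sub_self]
      | succ k =>
        have h1 := congrArg (PowerSeries.coeff (k + 1)) hD
        rw [PowerSeries.coeff_succ_X_mul, PowerSeries.coeff_derivative, PowerSeries.coeff_mul,
          Finset.sum_eq_zero] at h1
        · have h2 : ((k : ℂ) + 1) ≠ 0 := by exact_mod_cast Nat.succ_ne_zero k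
          exact (mul_eq_zero.1 h1).resolve_right h2
        · rintro ⟨i, j⟩ hij
          rw [Finset.HasAntidiagonal.mem_antidiagonal] at hij
          by_cases hj : j < k + 1
          · rw [ih j hj, mul_zero]
          · have hi : i = 0 := by
              have := hij
              simp only at this
              omega
            simp only [hi]
            rw [hP, zero_mul]
  rw [← sub_eq_zero]
  ext k
  rw [key k, map_zero]

theorem bser_zero (q : ℂ) {l : ℕ} [NeZero l] (m : ZMod l → ℤ) :
    PowerSeries.coeff 0 (Bser q m : PowerSeries ℂ) = 1 := by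
  have h1 : Units.map (PowerSeries.constantCoeff (R := ℂ)).toMonoidHom (Bser q m) = 1 := by
    rw [Bser, map_prod]
    refine Finset.prod_eq_one fun c _ => ?_
    rw [map_zpow]
    have h2 : Units.map (PowerSeries.constantCoeff (R := ℂ)).toMonoidHom
        (linU (qz q (2 * c))) = 1 := by
      ext
      simp [linU]
    rw [h2, one_zpow]
  have h3 := congrArg (fun u : ℂˣ => (u : ℂ)) h1
  rw [PowerSeries.coeff_zero_eq_constantCoeff_apply]
  simpa using h3

/-- **BUNIQ**. -/
theorem b_buniq (hG : S_GDER) (hB : S_BDER) : S_BUNIQ := by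
  intro l _ q m b β h1 h2 k
  have e1 := hG ℂ b β h1
  have e2 : (PowerSeries.mk (piv b β) : PowerSeries ℂ) = PowerSeries.mk (pim q m) := by
    ext n
    rw [PowerSeries.coeff_mk, PowerSeries.coeff_mk, h2]
  rw [e2] at e1
  have e3 := ps_ode_uniq (PowerSeries.mk (pim q m)) (Gser b) (Bser q m)
    (by rw [PowerSeries.coeff_mk, pim_zero]) e1 (hB l q m) (by rw [bser_zero]; simp [Gser])
  rw [Bco, ← e3, Gser, map_add, PowerSeries.coeff_succ_X_mul, PowerSeries.coeff_mk,
    PowerSeries.coeff_one]
  simp

end

end Pool.Agent.Helper28.SQ
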