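import Pool.Agent.Helper19.SQ.GoalsB

/-!
Project SQ (MP_bb32d1_al), packet CH1 (helper28).
-/

namespace Pool.Agent.Helper28.SQ

open Pool.Agent.Helper19.SQ Pool.Agent.Helper41.SQ

noncomputable section

theorem ten_eq_sum {N l : ℕ} {q : ℂ} {H : A N l q →ₐ[ℂ] Mat N (A N l q)} {M : Type}
    [AddCommGroup M] [Module ℂ M] [Module (A N l q) M] [IsScalarTower ℂ (A N l q) M]
    (f : Ten H M) : f = ∑ j : Fin (N + 1), tv H j (f j) := by
  funext i
  have h1 : (∑ j : Fin (N + 1), tv H j (f j)) i = ∑ j : Fin (N + 1), (tv H j (f j)) i :=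
    Finset.sum_apply (M := fun _ => M) i Finset.univ (fun j => (tv H j (f j) : Fin (N + 1) → M))
  rw [h1]
  unfold tv
  simp

theorem ten_finrank {N l : ℕ} {q : ℂ} {H : A N l q →ₐ[ℂ] Mat N (A N l q)} {M : Type}
    [AddCommGroup M] [Module ℂ M] [Module (A N l q) M] [IsScalarTower ℂ (A N l q) M]
    [FiniteDimensional ℂ M] : Module.finrank ℂ (Ten H M) = (N + 1) * Module.finrank ℂ M := by
  have h1 : Module.finrank ℂ (Fin (N + 1) → M) = ∑ _i : Fin (N + 1), Module.finrank ℂ M :=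
    Module.finrank_pi_fintype ℂ
  have h2 : Module.finrank ℂ (Ten H M) = Module.finrank ℂ (Fin (N + 1) → M) := rfl
  rw [h2, h1]
  simp

/-- **CH1**. -/
theorem b_ch1 (hFL : S_FL) (hLAYA : S_LAYA) (hXLAY : S_XLAY) (hHARM : S_HARM) (hZ : S_ZUNIV)
    (hG : S_GENV) (hC : S_CUP0) (hFD : S_FDIM) (hCV : S_CHARV) : S_CH1 := by
  intro N l _ q D hP hX lam k
  have hfd := hFD N l q hP
  obtain ⟨zfd, zs, zg, -⟩ := hZ N l q hP hfd lam
  have := zfd
  have hXk : ∀ a, Xm N l q ^ k * D.dl a = D.dl a * Xm N l q ^ k := by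
    intro a
    have h1 : Commute (Xm N l q) (D.dl a) := hX a
    exact h1.pow_left k
  have hL := hLAYA N l q D hP (Zl q lam) lam (zgen q lam) zs
  have hgen : Submodule.span (A N l q)
      (Set.range fun j : Fin (N + 1) => tv D.dl j (zgen q lam)) = ⊤ := by
    rw [eq_top_iff]
    intro f _
    rw [ten_eq_sum f]
    refine Submodule.sum_mem _ fun j _ => ?_
    have h1 : f j ∈ Submodule.span (A N l q) {zgen q lam} := by rw [zg]; trivial
    obtain ⟨a, ha⟩ := Submodule.mem_span_singleton.1 h1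
    rw [← ha, hG N l q D (fun a p j => hC N l q hP D a p j) (Zl q lam) a (zgen q lam) j]
    exact Submodule.sum_mem _ fun i _ => Submodule.smul_mem _ _ (Submodule.subset_span ⟨i, rfl⟩)
  have hd : ∀ lam', dZ (N := N) q lam' = dZ q lam := fun lam' => (hHARM N l q D hP).1 lam' lam
  obtain ⟨-, h2⟩ := hFL N l q hP hfd (Ten D.dl (Zl q lam)) (N + 1)
    (fun j => tv D.dl j (zgen q lam)) (fun j => addE lam j)
    (fun j k => (hL j).1 k)
    (fun j i => by rw [(hL j).2 i, sub_self]; exact Submodule.zero_mem _) hgen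
  have hfr : Module.finrank ℂ (Ten D.dl (Zl q lam)) = ∑ j, dZ q (addE lam j) := by
    rw [ten_finrank]
    simp only [hd]
    simp [dZ]
  obtain ⟨-, h3⟩ := h2 hfr
  have h4 := h3 (actMA (Xm N l q ^ k) hXk) (fun j => qz q (2 * xl lam j) ^ k) ?_
  · have h5 : ((actMA (Xm N l q ^ k) hXk : Ten D.dl (Zl q lam) →ₗ[A N l q] _).restrictScalars ℂ)
        = actM (Xm N l q ^ k) := rfl
    rw [h5, (hCV N l q D.dl (Zl q lam)).1] at h4
    rw [h4]
    simp only [hd]
    rw [Finset.mul_sum]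
    exact Finset.sum_congr rfl fun j _ => mul_comm _ _
  · intro j
    have h6 := hXLAY N l q D hP hX (Zl q lam) lam (zgen q lam) zs j (Polynomial.X ^ k)
    have h7 : pev (Polynomial.X ^ k) (Xm N l q) = Xm N l q ^ k := by simp [pev]
    have h8 : (Polynomial.X ^ k : Polynomial ℂ).eval (qz q (2 * xl lam j))
        = qz q (2 * xl lam j) ^ k := by simp
    rw [h7, h8] at h6
    exact h6

end

end Pool.Agent.Helper28.SQ
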