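import Pool.Agent.Helper19.SQ.GoalsB
import Pool.Agent.Helper34.SQ.Basic

/-!
Project SQ (MP_bb32d1_al), packet DVD, DVE, XNIL (helper28).
-/

namespace Pool.Agent.Helper28.SQ

open Pool.Agent.Helper19.SQ Pool.Agent.Helper41.SQ

noncomputable section

/-- **DVD**. -/
theorem b_dvd (hDVG : S_DVG) (hG : S_GENV) (hC : S_CUP0) : S_DVD := by
  intro N l _ q D hP hfd Θ hΘ h
  refine hDVG N l q hP hfd D.dl (fun i => (i : ℕ)) Θ hΘ ?_ ?_
  · intro M _ _ _ _ a m j
    rw [hG N l q D (fun a p j => hC N l q hP D a p j) M a m j]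
    exact Submodule.sum_mem _ fun i _ => Submodule.smul_mem _ _ (Submodule.subset_span ⟨i, rfl⟩)
  · intro M _ _ _ _ _ lam m hm j
    have h1 := h M lam m hm j
    rw [Ulow] at h1
    refine Submodule.span_mono ?_ h1
    rintro f ⟨i, hi, rfl⟩
    exact ⟨i, hi, rfl⟩

/-- **DVE**. -/
theorem b_dve (hDVG : S_DVG) (hG : S_GENVS) (hC : S_CUP1) : S_DVE := by
  intro N l _ q D hP hfd Θ hΘ h
  have hq : q ≠ 0 := hP.prim.ne_zero (by have := hP.h3; omega)
  refine hDVG N l q hP hfd D.ep (fun i => N - (i : ℕ)) Θ hΘ ?_ ?_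
  · intro M _ _ _ _ a m j
    rw [hG N l q D hq (fun a j p => hC N l q hP D a p j) M a m j]
    exact Submodule.sum_mem _ fun i _ => Submodule.smul_mem _ _ (Submodule.subset_span ⟨i, rfl⟩)
  · intro M _ _ _ _ _ lam m hm j
    have h1 := h M lam m hm j
    rw [Uhigh] at h1
    refine Submodule.span_mono ?_ h1
    rintro f ⟨i, hi, rfl⟩
    refine ⟨i, ?_, rfl⟩
    have h2 : (j : ℕ) < i := hi
    have h3 := i.2
    change N - (i : ℕ) < N - (j : ℕ)
    omega

/-- **XNIL**. -/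
theorem b_xnil (hDVD : S_DVD) (hXLAY : S_XLAY) (hFD : S_FDIM) : S_XNIL := by
  intro N l _ q D hP hX
  have hfd := hFD N l q hP
  have hpev : pev (Polynomial.X ^ l - 1) (Xm N l q) = Xm N l q ^ l - 1 := by simp [pev]
  have h1 : IsNilpotent (Xm N l q ^ l - 1) := by
    refine hDVD N l q D hP hfd _ ?_ ?_
    · intro a
      rw [← hpev]
      exact Pool.Agent.Helper34.SQ.pev_comm (hX a) _
    · intro M _ _ _ _ _ lam m hm j
      have h2 := hXLAY N l q D hP hX M lam m hm j (Polynomial.X ^ l - 1)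
      have h3 : (Polynomial.X ^ l - 1 : Polynomial ℂ).eval (qz q (2 * xl lam j)) = 0 := by
        simp [qz_pow_l hP.prim.pow_eq_one]
      rw [h3, zero_smul, sub_zero, hpev] at h2
      exact h2
  exact h1

end

end Pool.Agent.Helper28.SQ
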