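import Pool.Agent.Helper19.SQ.GoalsB

/-!
Project SQ (MP_bb32d1_al), packet FOUR (helper28).
-/

namespace Pool.Agent.Helper28.SQ

open Pool.Agent.Helper19.SQ Pool.Agent.Helper41.SQ

noncomputable section

/-- **FOUR**. -/
theorem b_four : S_FOUR := by
  intro N l _ q hP m hm m' hm' h
  have hinj : Function.Injective (fun i : Fin l => qz q (2 * (ZMod.finEquiv l i))) := by
    intro i j hij
    exact (ZMod.finEquiv l).injective (qz2_inj hP.prim hP.odd hij)
  have h1 : ∀ k, k < l → pim q m k = pim q m' k := by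
    intro k hk
    rcases Nat.eq_zero_or_pos k with h0 | h0
    · rw [h0, pim_zero, pim_zero]
    · exact h k h0 hk
  have h2 : (fun i : Fin l => (((m (ZMod.finEquiv l i + 1) - m (ZMod.finEquiv l i))
      - (m' (ZMod.finEquiv l i + 1) - m' (ZMod.finEquiv l i)) : ℤ) : ℂ)) = 0 := by
    apply Matrix.eq_zero_of_forall_pow_sum_mul_pow_eq_zero hinj
    intro k
    have h3 := Equiv.sum_comp (ZMod.finEquiv l).toEquiv
      (fun c : ZMod l => (((m (c + 1) - m c) - (m' (c + 1) - m' c) : ℤ) : ℂ)
        * qz q (2 * c) ^ (k : ℕ))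
    have h4 : ∑ c : ZMod l, (((m (c + 1) - m c) - (m' (c + 1) - m' c) : ℤ) : ℂ)
        * qz q (2 * c) ^ (k : ℕ) = pim q m k - pim q m' k := by
      rw [pim, pim, ← Finset.sum_sub_distrib]
      refine Finset.sum_congr rfl fun c _ => ?_
      push_cast
      ring
    rw [h4, h1 k k.2, sub_self] at h3
    exact h3
  have h5 : ∀ c : ZMod l, m (c + 1) - m' (c + 1) = m c - m' c := by
    intro c
    have h6 := congrFun h2 ((ZMod.finEquiv l).symm c)
    simp only [RingEquiv.apply_symm_apply, Pi.zero_apply] at h6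
    have h7 : (m (c + 1) - m c) - (m' (c + 1) - m' c) = 0 := by exact_mod_cast h6
    omega
  have h6 : ∀ n : ℕ, m (n : ZMod l) - m' (n : ZMod l) = m 0 - m' 0 := by
    intro n
    induction n with
    | zero => simp
    | succ n ih =>
      have := h5 (n : ZMod l)
      push_cast
      rw [this, ih]
  have h7 : ∀ c : ZMod l, m c - m' c = m 0 - m' 0 := by
    intro c
    have := h6 c.val
    rwa [ZMod.natCast_zmod_val] at this
  have s1 := (mem_typs.1 hm).2
  have s2 := (mem_typs.1 hm').2
  have h8 : ∑ c : ZMod l, (m c - m' c) = 0 := by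
    rw [Finset.sum_sub_distrib, s1, s2, sub_self]
  have h9 : (l : ℤ) * (m 0 - m' 0) = 0 := by
    rw [Finset.sum_congr rfl fun c _ => h7 c, Finset.sum_const, Finset.card_univ, ZMod.card,
      nsmul_eq_mul] at h8
    exact h8
  have hl : (l : ℤ) ≠ 0 := by exact_mod_cast NeZero.ne l
  have h10 : m 0 - m' 0 = 0 := (mul_eq_zero.1 h9).resolve_left hl
  funext c
  have := h7 c
  omega

end

end Pool.Agent.Helper28.SQ
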