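import Pool.Agent.Helper19.SQ.GoalsB

/-!
Project SQ (MP_bb32d1_al), packet GDER (helper28).
-/

namespace Pool.Agent.Helper28.SQ

open Pool.Agent.Helper19.SQ Pool.Agent.Helper41.SQ

noncomputable section

/-- **GDER**. -/
theorem b_gder : S_GDER := by
  intro R _ _ b β h
  -- the relation
  have h1 : (PowerSeries.mk b : PowerSeries R) = PowerSeries.mk β * Gser b := by
    ext k
    rw [Gser, mul_add, mul_one, mul_left_comm, map_add, PowerSeries.coeff_mk, PowerSeries.coeff_mk]
    cases k with
    | zero =>
      rw [h 0]
      simp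
    | succ k =>
      rw [PowerSeries.coeff_succ_X_mul, PowerSeries.coeff_mul,
        Finset.Nat.sum_antidiagonal_eq_sum_range_succ_mk, h (k + 1)]
      congr 1
      refine Finset.sum_congr rfl fun r _ => ?_
      simp
  have h2 : (1 - PowerSeries.X * PowerSeries.mk β) * Gser b = 1 := by
    rw [sub_mul, one_mul, mul_assoc, ← h1, Gser]
    ring
  -- the derivative
  have h3 : PowerSeries.derivative R (Gser b)
      = PowerSeries.mk (fun k => ((k : R) + 1) * b k) := by
    ext k
    rw [PowerSeries.coeff_derivative, PowerSeries.coeff_mk, Gser, map_add,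
      PowerSeries.coeff_succ_X_mul, PowerSeries.coeff_mk, PowerSeries.coeff_one]
    simp [mul_comm]
  have h4 : (PowerSeries.mk (piv b β) : PowerSeries R)
      = (1 - PowerSeries.X * PowerSeries.mk β) * (PowerSeries.X *
        PowerSeries.mk (fun k => ((k : R) + 1) * b k)) := by
    have e : (1 - PowerSeries.X * PowerSeries.mk β) * (PowerSeries.X *
        PowerSeries.mk (fun k => ((k : R) + 1) * b k))
        = PowerSeries.X * (PowerSeries.mk (fun k => ((k : R) + 1) * b k)
          - PowerSeries.X * (PowerSeries.mk β * PowerSeries.mk (fun k => ((k : R) + 1) * b k))) := by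
      ring
    rw [e]
    ext k
    rw [PowerSeries.coeff_mk]
    cases k with
    | zero => simp [piv]
    | succ k =>
      rw [PowerSeries.coeff_succ_X_mul, map_sub, PowerSeries.coeff_mk, piv]
      cases k with
      | zero => simp
      | succ k =>
        rw [PowerSeries.coeff_succ_X_mul, PowerSeries.coeff_mul,
          Finset.Nat.sum_antidiagonal_eq_sum_range_succ_mk]
        congr 1
        · have h5 : (((k + 1 : ℕ) : ℂ) + 1) = ((k + 1 + 1 : ℕ) : ℂ) := by push_cast; ring
          rw [h5, Nat.cast_smul_eq_nsmul, nsmul_eq_mul]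
          push_cast
          ring
        · refine Finset.sum_congr rfl fun r hr => ?_
          have hr' : r ≤ k := Nat.lt_succ_iff.1 (Finset.mem_range.1 hr)
          have h5 : (((k + 1 : ℕ) : ℂ) - (r : ℂ)) = ((k - r + 1 : ℕ) : ℂ) := by
            push_cast [Nat.cast_sub hr']
            ring
          rw [h5, Nat.cast_smul_eq_nsmul, nsmul_eq_mul, PowerSeries.coeff_mk,
            PowerSeries.coeff_mk, Nat.add_sub_cancel]
          push_cast
          ring
  rw [h3, h4, mul_assoc, mul_comm _ (Gser b), ← mul_assoc, h2, one_mul]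

end

end Pool.Agent.Helper28.SQ
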