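import Pool.Agent.Helper19.SQ.GoalsB

/-!
Project SQ (MP_bb32d1_al), packet NU (helper28).
-/

namespace Pool.Agent.Helper28.SQ

open Pool.Agent.Helper19.SQ Pool.Agent.Helper41.SQ

noncomputable section

/-- **NU**. -/
theorem b_nu : S_NU := by
  intro R _ _ G B Bi P P0 e J he hB hG hB' hJ
  obtain ⟨w, hw⟩ : ∃ w, w = (PowerSeries.C e : PowerSeries R) := ⟨_, rfl⟩
  rw [← hw] at hJ ⊢
  obtain ⟨ν, hν⟩ : ∃ ν, ν = w * (G * Bi - 1) := ⟨_, rfl⟩
  rw [← hν] at hJ ⊢
  obtain ⟨z, hz⟩ : ∃ z, z = (PowerSeries.X : PowerSeries R) := ⟨_, rfl⟩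
  rw [← hz] at hG hB' ⊢
  have hww : w * w = w := by rw [hw, ← map_mul, he]
  have hwν : w * ν = ν := by rw [hν, ← mul_assoc, hww]
  have hwD : PowerSeries.derivative R w = 0 := by
    rw [hw]
    ext n
    rw [PowerSeries.coeff_derivative, PowerSeries.coeff_C]
    simp
  have hνD : w * PowerSeries.derivative R ν = PowerSeries.derivative R ν := by
    have h1 := congrArg (PowerSeries.derivative R) hwν
    rw [Derivation.leibniz, hwD, smul_zero, add_zero, smul_eq_mul] at h1
    exact h1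
  have h1 : B * (w + ν) = w * G := by
    rw [hν]
    linear_combination (w * G) * hB
  have h2 : z * PowerSeries.derivative R (B * (w + ν))
      = P0 * B * (w + ν) + B * (z * PowerSeries.derivative R ν) := by
    rw [Derivation.leibniz, map_add, hwD, smul_eq_mul, smul_eq_mul]
    linear_combination (w + ν) * hB'
  have h3 : z * PowerSeries.derivative R (w * G) = w * (P * G) := by
    rw [Derivation.leibniz, hwD, smul_eq_mul, smul_zero]
    linear_combination w * hG
  rw [h1, h3] at h2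
  have h4 : (P - P0) * (w + ν) = z * PowerSeries.derivative R ν := by
    linear_combination Bi * h2 + (P * Bi) * h1
      + (P0 * (w + ν) - P * (w + ν) + z * PowerSeries.derivative R ν) * hB
  obtain ⟨S, hS⟩ : ∃ S, S = ∑ i ∈ Finset.range J, (-ν) ^ i := ⟨_, rfl⟩
  have h5 : (1 + ν) * S = 1 := by
    have h6 := mul_neg_geom_sum (-ν) J
    rw [neg_pow, hJ, mul_zero, sub_zero, sub_neg_eq_add, ← hS] at h6
    exact h6
  have h7 : PowerSeries.derivative R (∑ i ∈ Finset.range J,
        ((-1 : ℂ) ^ i / ((i : ℂ) + 1)) • ν ^ (i + 1)) = S * PowerSeries.derivative R ν := by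
    rw [map_sum, hS, Finset.sum_mul]
    refine Finset.sum_congr rfl fun i _ => ?_
    have h8 : PowerSeries.derivative R (((-1 : ℂ) ^ i / ((i : ℂ) + 1)) • ν ^ (i + 1))
        = ((-1 : ℂ) ^ i / ((i : ℂ) + 1)) • PowerSeries.derivative R (ν ^ (i + 1)) := by
      exact (PowerSeries.derivative R).map_smul_of_tower _ _
    rw [h8, Derivation.leibniz_pow, Nat.add_sub_cancel, smul_eq_mul, ← Nat.cast_smul_eq_nsmul ℂ,
      smul_smul]
    have h9 : ((-1 : ℂ) ^ i / ((i : ℂ) + 1)) * ((i + 1 : ℕ) : ℂ) = (-1) ^ i := by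
      have : ((i : ℂ) + 1) ≠ 0 := by exact_mod_cast Nat.succ_ne_zero i
      push_cast
      field_simp
    rw [h9, neg_pow ν i]
    have h10 : ∀ x : PowerSeries R, ((-1 : ℂ) ^ i) • x = (-1) ^ i * x := by
      intro x
      rcases Nat.even_or_odd i with h | h
      · rw [h.neg_one_pow, h.neg_one_pow, one_smul, one_mul]
      · rw [h.neg_one_pow, h.neg_one_pow, neg_smul, one_smul, neg_mul, one_mul]
    rw [h10, mul_assoc]
  rw [h7]
  linear_combination (-(P - P0) * w) * h5 + (S * w) * h4 + (z * S) * hνD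
    - ((P - P0) * S) * hww

end

end Pool.Agent.Helper28.SQ
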