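import Pool.Agent.Helper19.SQ.GoalsC

/-!
Packet SQ-LAU (helper19, project SQ): `S_LAU`, the exponents of `y` can be taken non-negative.
-/

set_option autoImplicit false
set_option linter.unusedSectionVars false
set_option linter.unusedVariables false

namespace Pool.Agent.Helper28.SQ

noncomputable section

open Pool.Agent.Helper19.SQ

/-- a third index. -/
theorem third28 {l : ℕ} [NeZero l] (hl : 3 ≤ l) (c d : ZMod l) : ∃ b : ZMod l, b ≠ c ∧ b ≠ d := by
  classical
  have h1 : ({c, d} : Finset (ZMod l)).card < (Finset.univ : Finset (ZMod l)).card := by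
    rw [Finset.card_univ, ZMod.card]
    exact lt_of_le_of_lt Finset.card_le_two (by omega)
  obtain ⟨b, -, hb⟩ := Finset.exists_mem_notMem_of_card_lt_card h1
  simp only [Finset.mem_insert, Finset.mem_singleton, not_or] at hb
  exact ⟨b, hb.1, hb.2⟩

/-- a linear map that preserves a finite dimensional space and has a left inverse there: the left
inverse preserves the space. -/
theorem linv_mem28 {W : Type} [AddCommGroup W] [Module ℂ W] (V : Submodule ℂ W)
    [FiniteDimensional ℂ V] (Y Z : W →ₗ[ℂ] W) (h1 : ∀ X ∈ V, Y X ∈ V) (h2 : ∀ X ∈ V, Z (Y X) = X) :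
    ∀ X ∈ V, Z X ∈ V := by
  have hinj : Function.Injective (Y.restrict h1) := by
    intro a b hab
    have h3 : Y a = Y b := congrArg Subtype.val hab
    apply Subtype.ext
    rw [← h2 a a.2, ← h2 b b.2, h3]
  have hsurj : Function.Surjective (Y.restrict h1) :=
    LinearMap.injective_iff_surjective.1 hinj
  intro X hX
  obtain ⟨X', hX'⟩ := hsurj ⟨X, hX⟩
  have h3 : Y X' = X := congrArg Subtype.val hX'
  rw [← h3, h2 X' X'.2]
  exact X'.2

section main

variable {l n : ℕ} [NeZero l] {T : Type} [AddCommGroup T] [Module ℂ T] (C : Cnt l n T)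

/-- the span of the `e d c i j`, `0 ≤ j`. -/
def Vc28 (d c : ZMod l) : Submodule ℂ (Module.End ℂ T) :=
  Submodule.span ℂ {X | ∃ (i : ℕ) (j : ℕ), X = C.e d c i (j : ℤ)}

/-- the commutator with `g`. -/
def Yg28 (g : Module.End ℂ T) : Module.End ℂ T →ₗ[ℂ] Module.End ℂ T :=
  LinearMap.mulLeft ℂ g - LinearMap.mulRight ℂ g

theorem Yg_apply28 (g X : Module.End ℂ T) : Yg28 g X = g * X - X * g := rfl

/-- the element `g_s`. -/
def gs28 (d b : ZMod l) (s : ℤ) : Module.End ℂ T :=
  C.e d b 0 s * C.e b d 0 0 - C.e b d 0 0 * C.e d b 0 s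

theorem Yg_e28 (hG : S_GBR) (hl : 3 ≤ l) (d c b : ZMod l) (hcd : c ≠ d) (hbc : b ≠ c)
    (hbd : b ≠ d) (s : ℤ) (i : ℕ) (j : ℤ) :
    Yg28 (gs28 C d b s) (C.e d c i j) = C.e d c i (j + s) := by
  have h := (hG l n T C hl d b hbd 0 0 s 0 (gs28 C d b s) rfl).1 c i j (Ne.symm hbc) hcd
  rw [Yg_apply28, ← neg_sub, h, neg_neg]
  simp only [add_zero]

theorem mem_Vc28 (hG : S_GBR) (hl : 3 ≤ l) (d c : ZMod l) (hcd : c ≠ d) (i : ℕ) (j : ℤ) :
    C.e d c i j ∈ Vc28 C d c := by
  haveI := C.fd
  obtain ⟨b, hbc, hbd⟩ := third28 hl c d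
  have hY1 : ∀ X ∈ Vc28 C d c, Yg28 (gs28 C d b 1) X ∈ Vc28 C d c := by
    intro X hX
    unfold Vc28 at hX
    induction hX using Submodule.span_induction with
    | mem X hX =>
      obtain ⟨i, j, rfl⟩ := hX
      rw [Yg_e28 C hG hl d c b hcd hbc hbd]
      exact Submodule.subset_span ⟨i, j + 1, by push_cast; rfl⟩
    | zero => rw [map_zero]; exact Submodule.zero_mem _
    | add X X' _ _ h h' => rw [map_add]; exact Submodule.add_mem _ h h'
    | smul a X _ h => rw [map_smul]; exact Submodule.smul_mem _ _ h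
  have hY2 : ∀ X ∈ Vc28 C d c, Yg28 (gs28 C d b (-1)) (Yg28 (gs28 C d b 1) X) = X := by
    intro X hX
    unfold Vc28 at hX
    induction hX using Submodule.span_induction with
    | mem X hX =>
      obtain ⟨i, j, rfl⟩ := hX
      rw [Yg_e28 C hG hl d c b hcd hbc hbd, Yg_e28 C hG hl d c b hcd hbc hbd]
      congr 1
      ring
    | zero => rw [map_zero, map_zero]
    | add X X' _ _ h h' => rw [map_add, map_add, h, h']
    | smul a X _ h => rw [map_smul, map_smul, h]
  have hZ := linv_mem28 (Vc28 C d c) (Yg28 (gs28 C d b 1)) (Yg28 (gs28 C d b (-1))) hY1 hY2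
  have hneg : ∀ k : ℕ, C.e d c i (-(k : ℤ)) ∈ Vc28 C d c := by
    intro k
    induction k with
    | zero => exact Submodule.subset_span ⟨i, 0, by simp⟩
    | succ k ih =>
      have h := hZ _ ih
      rw [Yg_e28 C hG hl d c b hcd hbc hbd] at h
      have h2 : -(k : ℤ) + -1 = -((k + 1 : ℕ) : ℤ) := by push_cast; ring
      rw [h2] at h
      exact h
  rcases Int.eq_nat_or_neg j with ⟨k, rfl | rfl⟩
  · exact Submodule.subset_span ⟨i, k, rfl⟩
  · exact hneg k

/-- the operator of a word is in the span of the operators of words with non-negative exponents. -/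
theorem dOp_span28 (hG : S_GBR) (hl : 3 ≤ l) (d : ZMod l) :
    ∀ u : List (Lt3 l), (∀ a ∈ u, a.1 ≠ d) →
      dOp C d u ∈ Submodule.span ℂ {X | ∃ u' : List (Lt3 l), (∀ a ∈ u', a.1 ≠ d ∧ 0 ≤ a.2.2) ∧
        u'.map Prod.fst = u.map Prod.fst ∧ X = dOp C d u'} := by
  intro u
  induction u with
  | nil =>
    intro _
    refine Submodule.subset_span ⟨[], ?_, rfl, rfl⟩
    intro a ha
    cases ha
  | cons a u ih =>
    intro hu
    have h1 : a.1 ≠ d := hu a List.mem_cons_self
    have h2 := ih fun b hb => hu b (List.mem_cons_of_mem _ hb)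
    have h3 := mem_Vc28 C hG hl d a.1 h1 a.2.1 a.2.2
    have h4 : dOp C d (a :: u) = C.e d a.1 a.2.1 a.2.2 * dOp C d u := by
      unfold dOp
      rw [List.map_cons, List.prod_cons]
    rw [h4]
    have h5 := Submodule.mul_mem_mul h3 h2
    unfold Vc28 at h5
    rw [Submodule.span_mul_span] at h5
    refine Submodule.span_mono ?_ h5
    rintro X hX
    obtain ⟨A, ⟨i, j, rfl⟩, B, ⟨u', hu', hmap, rfl⟩, rfl⟩ := Set.mem_mul.1 hX
    refine ⟨(a.1, i, (j : ℤ)) :: u', ?_, ?_, ?_⟩
    · intro b hb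
      rcases List.mem_cons.1 hb with rfl | hb
      · exact ⟨h1, by simp⟩
      · exact hu' b hb
    · rw [List.map_cons, List.map_cons, hmap]
    · unfold dOp
      rw [List.map_cons, List.prod_cons]

theorem dWt_map28 (d : ZMod l) (u : List (Lt3 l)) :
    dWt d u = ((u.map Prod.fst).map fun c => sg d - sg c).sum := by
  unfold dWt
  rw [List.map_map]
  rfl

end main

theorem s_lau (hS : S_SPN) (hG : S_GBR) : S_LAU := by
  intro l n _ T _ _ C hl d m x hx hu
  refine hS l n T C hl d m x hx ?_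
  intro u h1 h2
  have h3 := dOp_span28 C hG hl d u h1
  have key : ∀ X ∈ Submodule.span ℂ {X | ∃ u' : List (Lt3 l), (∀ a ∈ u', a.1 ≠ d ∧ 0 ≤ a.2.2) ∧
        u'.map Prod.fst = u.map Prod.fst ∧ X = dOp C d u'}, X x = 0 := by
    intro X hX
    induction hX using Submodule.span_induction with
    | mem X hX =>
      obtain ⟨u', h4, h5, rfl⟩ := hX
      apply hu u' h4
      rw [dWt_map28, h5, ← dWt_map28, h2]
    | zero => rfl
    | add X X' _ _ h h' => rw [LinearMap.add_apply, h, h', add_zero]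
    | smul a X _ h => rw [LinearMap.smul_apply, h, smul_zero]
  exact key _ h3

end

end Pool.Agent.Helper28.SQ
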