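import Pool.Agent.Helper4.SQ.GoalsL

/-!
Packet SQL-GEN (helper4, project SQ): `S_GEN`.
-/

set_option autoImplicit false
set_option linter.unusedSectionVars false
set_option linter.unusedVariables false

namespace Pool.Agent.Helper28.SQ

noncomputable section

open Pool.Agent.Helper19.SQ Pool.Agent.Helper4.SQ

/-- the value of `a + 1` when `a.val + 1 < l`. -/
theorem val_succ28 {l : ℕ} [NeZero l] (hl : 2 ≤ l) (a : ZMod l) (ha : a.val + 1 < l) :
    (a + 1).val = a.val + 1 := by
  haveI : Fact (1 < l) := ⟨by omega⟩
  rw [ZMod.val_add_of_lt]
  · rw [ZMod.val_one]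
  · rw [ZMod.val_one]; exact ha

theorem ne_neg_one28 {l : ℕ} [NeZero l] (hl : 2 ≤ l) (a : ZMod l) (ha : a.val + 1 < l) :
    a ≠ -1 := by
  intro h
  have h1 := val_succ28 hl a ha
  rw [h] at h1
  simp at h1

theorem comm_lie28 {L : Type} [LieRing L] {x y X : L} (hx : ⁅x, X⁆ = 0) (hy : ⁅y, X⁆ = 0) :
    ⁅⁅x, y⁆, X⁆ = 0 := by
  rw [lie_lie, hy, hx, lie_zero, lie_zero, sub_zero]

theorem sGEN : S_GEN := by
  intro l _ V _ _ T hl G hG X a b
  constructor
  · intro hab hc
    -- induction on the difference
    have key : ∀ n : ℕ, ∀ a b : ZMod l, a.val < b.val → b.val - a.val ≤ n →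
        (∀ c : ZMod l, a.val ≤ c.val → c.val < b.val → ⁅T.E c 0, X⁆ = 0) →
        ⁅G.e a b, X⁆ = 0 := by
      intro n
      induction n with
      | zero => intro a b h1 h2; omega
      | succ n ih =>
        intro a b h1 h2 hc
        have hbl : b.val < l := ZMod.val_lt b
        have hal : a.val + 1 < l := by omega
        have hv := val_succ28 hl a hal
        have hne := ne_neg_one28 hl a hal
        have hE := (hG a hne).1
        have hEX : ⁅G.e a (a + 1), X⁆ = 0 := by
          rw [hE]; exact hc a le_rfl h1
        by_cases hb : b.val = a.val + 1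
        · have : b = a + 1 := by
            apply ZMod.val_injective l
            rw [hb, hv]
          rw [this]; exact hEX
        · have hab : a ≠ b := by
            intro h; rw [h] at h1; exact lt_irrefl _ h1
          have hgl := G.gl a (a + 1) (a + 1) b
          rw [if_pos rfl, if_neg hab, sub_zero] at hgl
          rw [← hgl]
          apply comm_lie28 hEX
          apply ih (a + 1) b
          · rw [hv]; omega
          · rw [hv]; omega
          · intro c h3 h4
            rw [hv] at h3
            exact hc c (by omega) h4
    exact key _ a b hab le_rfl hc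
  · intro hab hc
    have key : ∀ n : ℕ, ∀ a b : ZMod l, b.val < a.val → a.val - b.val ≤ n →
        (∀ c : ZMod l, b.val ≤ c.val → c.val < a.val → ⁅T.F c 0, X⁆ = 0) →
        ⁅G.e a b, X⁆ = 0 := by
      intro n
      induction n with
      | zero => intro a b h1 h2; omega
      | succ n ih =>
        intro a b h1 h2 hc
        have hal : a.val < l := ZMod.val_lt a
        have hbl : b.val + 1 < l := by omega
        have hv := val_succ28 hl b hbl
        have hne := ne_neg_one28 hl b hbl
        have hF := (hG b hne).2
        have hFX : ⁅G.e (b + 1) b, X⁆ = 0 := by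
          rw [hF]; exact hc b le_rfl h1
        by_cases hb : a.val = b.val + 1
        · have : a = b + 1 := by
            apply ZMod.val_injective l
            rw [hb, hv]
          rw [this]; exact hFX
        · have hab : a ≠ b := by
            intro h; rw [h] at h1; exact lt_irrefl _ h1
          have hgl := G.gl a (b + 1) (b + 1) b
          rw [if_pos rfl, if_neg hab, sub_zero] at hgl
          rw [← hgl]
          refine comm_lie28 ?_ hFX
          apply ih a (b + 1)
          · rw [hv]; omega
          · rw [hv]; omega
          · intro c h3 h4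
            rw [hv] at h3
            exact hc c (by omega) h4
    exact key _ a b hab le_rfl hc

end

end Pool.Agent.Helper28.SQ
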